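import Pool.Agent.D0H39.NG.Stm2
import Pool.Agent.D0H84.NG.Proj

/-! NG22: cotangent coordinates. -/

set_option autoImplicit false
set_option maxHeartbeats 400000

open Set Filter Topology Metric Function
open scoped ContDiff RealInnerProductSpace NNReal

noncomputable section

namespace Pool.Agent.D0H96.NG

open Pool.Agent.D0H39.NG
open Pool.Agent.D0H84.NG (adjL adjL_inner gram_equiv t_TAN t_INV)

variable {k m : ℕ}

/-- the inverse of the Gram matrix -/
def Mi (A : E k →L[ℝ] E m) : E k →L[ℝ] E k :=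
  ContinuousLinearMap.inverse ((adjL k m A).comp A)

theorem Mi_left (A : E k →L[ℝ] E m) (hA : Injective A) (v : E k) :
    Mi A (adjL k m A (A v)) = v := by
  obtain ⟨e, he⟩ := gram_equiv A hA
  have h : adjL k m A (A v) = e v := by
    have := congrArg (fun L : E k →L[ℝ] E k => L v) he
    exact this.symm
  unfold Mi
  rw [← he, h]
  simp

theorem Mi_right (A : E k →L[ℝ] E m) (hA : Injective A) (v : E k) :
    adjL k m A (A (Mi A v)) = v := by
  obtain ⟨e, he⟩ := gram_equiv A hA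
  have h : ∀ v, adjL k m A (A v) = e v := fun v => by
    have := congrArg (fun L : E k →L[ℝ] E k => L v) he
    exact this.symm
  unfold Mi
  rw [← he, h]
  simp

theorem Mi_smooth {V : Type} [NormedAddCommGroup V] [NormedSpace ℝ V] {A : V → E k →L[ℝ] E m}
    (hA : ContDiff ℝ ∞ A) (hi : ∀ q, Injective (A q)) : ContDiff ℝ ∞ fun q => Mi (A q) := by
  have h1 : ContDiff ℝ ∞ fun q => adjL k m (A q) := (adjL k m).contDiff.comp hA
  have h2 : ContDiff ℝ ∞ fun q => (adjL k m (A q)).comp (A q) := h1.clm_comp hA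
  rw [contDiff_iff_contDiffAt]
  intro q
  obtain ⟨e, he⟩ := gram_equiv (A q) (hi q)
  have h4 : ContDiffAt ℝ ∞ ContinuousLinearMap.inverse ((adjL k m (A q)).comp (A q)) := by
    rw [← he]
    exact contDiffAt_map_inverse e
  exact h4.comp q h2.contDiffAt

/-- the cotangent coordinates -/
def kap (F : E k → E m) (w : E k × E k) : E m × E m :=
  (F w.1, fderiv ℝ F w.1 (Mi (fderiv ℝ F w.1) w.2))

/-- the inverse of the cotangent coordinates -/
def kap' (F : E k → E m) (θ : E m → E k) (y : E m × E m) : E k × E k :=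
  (θ y.1, adjL k m (fderiv ℝ F (θ y.1)) y.2)

theorem kap_kap' {N : Set (E m)} {F : E k → E m} (hF : IsPar k N F) (s : E k) (y : E m × E m)
    (hy : y ∈ CT N) (h : F s = y.1) : kap F (s, adjL k m (fderiv ℝ F s) y.2) = y := by
  have hi : Injective (fderiv ℝ F s) := by
    rw [injective_iff_map_eq_zero]
    exact hF.imm s
  have h1 := hy.2
  rw [← h, t_TAN (E m) k N F hF] at h1
  obtain ⟨v, hv⟩ := h1
  unfold kap
  ext1
  · exact h
  · show fderiv ℝ F s (Mi (fderiv ℝ F s) (adjL k m (fderiv ℝ F s) y.2)) = y.2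
    rw [← hv, Mi_left _ hi]

theorem t_FLAT : S_FLAT := by
  intro m k N hN z hz
  obtain ⟨F, hF, hF0⟩ := hN z.1 hz.1
  have hi : ∀ s, Injective (fderiv ℝ F s) := by
    intro s
    rw [injective_iff_map_eq_zero]
    exact hF.imm s
  have hdF : ContDiff ℝ ∞ (fderiv ℝ F) := hF.smooth.fderiv_right (m := ∞) (by simp)
  refine ⟨F, kap F, (0, adjL k m (fderiv ℝ F 0) z.2), ?_, kap_kap' hF 0 z hz hF0⟩
  refine ⟨?_, hF, ?_, ?_, fun w => rfl, ?_, ?_⟩
  · -- smooth
    unfold kap
    refine (hF.smooth.comp contDiff_fst).prodMk ?_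
    have h1 : ContDiff ℝ ∞ fun w : E k × E k => fderiv ℝ F w.1 := hdF.comp contDiff_fst
    have h2 : ContDiff ℝ ∞ fun w : E k × E k => Mi (fderiv ℝ F w.1) :=
      (Mi_smooth hdF hi).comp contDiff_fst
    exact h1.clm_apply (h2.clm_apply contDiff_snd)
  · -- injective
    intro w w' h
    have h1 : F w.1 = F w'.1 := congrArg Prod.fst h
    have h2 := hF.inj h1
    have h3 : fderiv ℝ F w.1 (Mi (fderiv ℝ F w.1) w.2) =
      fderiv ℝ F w'.1 (Mi (fderiv ℝ F w'.1) w'.2) := congrArg Prod.snd h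
    rw [← h2] at h3
    have h4 := hi _ h3
    have h5 := congrArg (fun v => adjL k m (fderiv ℝ F w.1) (fderiv ℝ F w.1 v)) h4
    simp only [Mi_right _ (hi _)] at h5
    exact Prod.ext h2 h5
  · -- maps
    intro w
    refine ⟨hF.mem _, ?_⟩
    show IsTan N (F w.1) _
    rw [t_TAN (E m) k N F hF]
    exact ⟨_, rfl⟩
  · -- lam
    intro w v
    show ⟪fderiv ℝ F w.1 (Mi (fderiv ℝ F w.1) w.2), fderiv ℝ F w.1 v⟫ = _
    rw [← adjL_inner, Mi_right _ (hi _)]
  · -- inv
    intro w₀
    obtain ⟨θ, hθ, hθ1, hθ2⟩ := t_INV (E m) k N F hF w₀.1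
    refine ⟨kap' F θ, ?_, ?_, ?_⟩
    · unfold kap'
      refine (hθ.comp contDiff_fst).prodMk ?_
      have h1 : ContDiff ℝ ∞ fun y : E m × E m => adjL k m (fderiv ℝ F (θ y.1)) :=
        (adjL k m).contDiff.comp (hdF.comp (hθ.comp contDiff_fst))
      exact h1.clm_apply contDiff_snd
    · filter_upwards [(continuous_fst.tendsto w₀).eventually hθ1] with w hw
      show (θ (F w.1), adjL k m (fderiv ℝ F (θ (F w.1)))
        (fderiv ℝ F w.1 (Mi (fderiv ℝ F w.1) w.2))) = w
      rw [hw, Mi_right _ (hi _)]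
    · have h1 : Tendsto (fun y : E m × E m => y.1) (𝓝 (kap F w₀)) (𝓝 (F w₀.1)) :=
        continuous_fst.tendsto (kap F w₀)
      filter_upwards [h1.eventually hθ2] with y hy hyN
      exact kap_kap' hF (θ y.1) y hyN (hy hyN.1)

end Pool.Agent.D0H96.NG
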